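import Pool.Agent.helper24.BR.SpecA

/-!
# Row `bp:ABZ` (MP_baa4d7_al): the sum over the tuples
-/

set_option autoImplicit false

namespace Pool.Agent.BR

open Pool.Agent.helper58.DC Pool.Agent.DI Pool.Agent.GR Pool.Agent.OB Pool.Agent.DR Pool.Agent.FI Pool.Agent.FI3 Pool.Agent.FI4 Pool.Agent.LE

theorem ABZ_dl {G : Type} [Group G] (e : G → ℂ) : cv GR.dl e = e := by
  funext g
  unfold cv GR.dl
  rw [finsum_eq_single _ 1]
  · rw [if_pos rfl, one_mul, inv_one, one_mul]
  · intro x hx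
    rw [if_neg hx, zero_mul]

theorem ABZ_cvp {G : Type} [Group G] (e : G → ℂ) (he : cv e e = e) (q : ℕ) : cvp e (q + 1) = e := by
  induction q with
  | zero => exact ABZ_dl e
  | succ n ih =>
    show cv (cvp e (n + 1)) e = e
    rw [ih, he]

open Classical in
theorem ABZ_set {α : Type} [Fintype α] (P : α → Prop) (f : α → ℂ) :
    ∑ᶠ t ∈ {t : α | P t}, f t = ∑ t, if P t then f t else 0 := by
  have h : {t : α | P t} = ((Finset.univ.filter P : Finset α) : Set α) := by
    ext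
    simp
  rw [h, finsum_mem_coe_finset, Finset.sum_filter]

section

variable {G : Type} [Group G] [Finite G]

/-- `TH` as a sum over the tuples. -/
theorem ABZ_TH (hTHB : THB_stmt) (hREP : REP_stmt) {p : ℕ} {M : Ideal (integralClosure ℤ ℂ)} (hM : Setup p M)
    {D : Subgroup G} {x : G} {θ χ : G → ℂ} (hL : LoA p M D x θ χ) (l : D →* ℂˣ) {ψ : G → ℂ} (hψ : ψ ∈ IrrOn (⊤ : Subgroup G))
    (u w : G) (hw : w ∈ Cz (⊤ : Subgroup G) u) (q : ℕ) :
    TH M D θ l ψ u w = ∑ᶠ t : Fin (q + 1) → G, Wt M D θ l (Subgroup.zpowers u) u t * ψ (u * w * (List.ofFn t).prod) := by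
  classical
  let _ : Fintype G := Fintype.ofFinite G
  rw [hTHB p M hM G D x θ χ hL l ψ hψ u w hw]
  obtain ⟨hfin, -, -, h4, -⟩ := hREP p M hM G (Cz (⊤ : Subgroup G) u)
  have hev : ∀ e ∈ BB M (Cz (⊤ : Subgroup G) u),
      ev ψ e (u * w) = ∑ t : Fin (q + 1) → G, (∏ i, e (t i)) * ψ (u * w * (List.ofFn t).prod) := by
    intro e he
    have h1 := TUF ψ e (q + 1) (u * w)
    rw [ABZ_cvp e (h4 e he).2.2.2, finsum_eq_sum_of_fintype] at h1
    exact h1
  have hWt : ∀ t : Fin (q + 1) → G, Wt M D θ l (Subgroup.zpowers u) u t =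
      ∑ e ∈ hfin.toFinset, Lam M D θ l u (rep M (Cz (⊤ : Subgroup G) u) e) * ∏ i, e (t i) := by
    intro t
    unfold Wt
    rw [cz_zp, finsum_mem_eq_finite_toFinset_sum _ hfin]
  rw [finsum_mem_eq_finite_toFinset_sum _ hfin, finsum_eq_sum_of_fintype]
  calc ∑ e ∈ hfin.toFinset, Lam M D θ l u (rep M (Cz (⊤ : Subgroup G) u) e) * ev ψ e (u * w)
      = ∑ e ∈ hfin.toFinset, ∑ t : Fin (q + 1) → G,
          Lam M D θ l u (rep M (Cz (⊤ : Subgroup G) u) e) * (∏ i, e (t i)) * ψ (u * w * (List.ofFn t).prod) := by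
        refine Finset.sum_congr rfl fun e he => ?_
        rw [hev e (hfin.mem_toFinset.1 he), Finset.mul_sum]
        refine Finset.sum_congr rfl fun t _ => ?_
        ring
    _ = ∑ t : Fin (q + 1) → G, ∑ e ∈ hfin.toFinset,
          Lam M D θ l u (rep M (Cz (⊤ : Subgroup G) u) e) * (∏ i, e (t i)) * ψ (u * w * (List.ofFn t).prod) := Finset.sum_comm
    _ = ∑ t : Fin (q + 1) → G, Wt M D θ l (Subgroup.zpowers u) u t * ψ (u * w * (List.ofFn t).prod) := by
        refine Finset.sum_congr rfl fun t _ => ?_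
        rw [hWt, Finset.sum_mul]

/-- the weight vanishes if `u` does not commute with the tuple -/
theorem ABZ_zero (hREP : REP_stmt) {p : ℕ} {M : Ideal (integralClosure ℤ ℂ)} (hM : Setup p M)
    (D : Subgroup G) (θ : G → ℂ) (l : D →* ℂˣ) (A : Subgroup G) (u : G) (hu : u ∈ A) {q : ℕ} (t : Fin q → G) (hut : u ∉ st A t) :
    Wt M D θ l (Subgroup.zpowers u) u t = 0 := by
  classical
  obtain ⟨hfin, -, -, h4, -⟩ := hREP p M hM G (Cz (⊤ : Subgroup G) u)
  have h1 : ∃ i, t i ∉ Cz (⊤ : Subgroup G) u := by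
    by_contra hcon
    push Not at hcon
    apply hut
    unfold st
    rw [Subgroup.mem_inf]
    refine ⟨hu, ?_⟩
    rw [Subgroup.mem_centralizer_iff]
    rintro g ⟨i, rfl⟩
    have h2 := hcon i
    unfold Cz at h2
    rw [top_inf_eq, Subgroup.mem_centralizer_iff] at h2
    exact (h2 u (Set.mem_singleton u)).symm
  obtain ⟨i, hi⟩ := h1
  unfold Wt
  rw [cz_zp, finsum_mem_eq_finite_toFinset_sum _ hfin]
  refine Finset.sum_eq_zero fun e he => ?_
  rw [Finset.prod_eq_zero (Finset.mem_univ i) ((h4 e (hfin.mem_toFinset.1 he)).2.1 _ hi), mul_zero]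

end

theorem ABZ (hTHB : THB_stmt) (hREP : REP_stmt) (hABS : ABS_stmt) (hABD : ABD_stmt) : ABZ_stmt := by
  classical
  intro p M hM G _ _ D x θ χ hL l ψ hψ A hA com w hw k hk
  let _ : Fintype G := Fintype.ofFinite G
  let _ : Fintype (Subgroup G) := Fintype.ofFinite (Subgroup G)
  have : Fact p.Prime := ⟨hM.pr⟩
  obtain ⟨r, hr⟩ := IsPGroup.iff_card.1 hA
  -- the common exponent
  obtain ⟨N, hN⟩ : ∃ N : ℕ, ∀ S ≤ A, Small p M r
      ((∑ᶠ t ∈ {t : Fin (p ^ N) → G | st A t = S}, ∑ᶠ u ∈ (S : Set G), k u * Wt M D θ l (Subgroup.zpowers u) u t *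
          ψ (u * w * (List.ofFn t).prod)) -
        ∑ᶠ t ∈ {t : Fin (p ^ N) → G | st A t = S}, ∑ᶠ u ∈ (S : Set G), k u * Wt M D θ l S u t * ψ (u * w * (List.ofFn t).prod)) := by
    have h1 : ∀ S : Subgroup G, ∃ N₀ : ℕ, S ≤ A → ∀ N ≥ N₀, Small p M r
      ((∑ᶠ t ∈ {t : Fin (p ^ N) → G | st A t = S}, ∑ᶠ u ∈ (S : Set G), k u * Wt M D θ l (Subgroup.zpowers u) u t *
          ψ (u * w * (List.ofFn t).prod)) -
        ∑ᶠ t ∈ {t : Fin (p ^ N) → G | st A t = S}, ∑ᶠ u ∈ (S : Set G), k u * Wt M D θ l S u t * ψ (u * w * (List.ofFn t).prod)) := by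
      intro S
      by_cases hS : S ≤ A
      · obtain ⟨N₀, h⟩ := hABS p M hM G D x θ χ hL l ψ hψ A hA com w hw k hk S hS r
        exact ⟨N₀, fun _ => h⟩
      · exact ⟨0, fun h => absurd h hS⟩
    choose N₀ h2 using h1
    refine ⟨∑ S : Subgroup G, N₀ S, fun S hS => h2 S hS _ ?_⟩
    exact Finset.single_le_sum (f := N₀) (fun _ _ => Nat.zero_le _) (Finset.mem_univ S)
  obtain ⟨q, hq⟩ : ∃ q : ℕ, p ^ N = q + 1 := ⟨p ^ N - 1, by have h0 : 0 < p ^ N := pow_pos hM.pr.pos N; omega⟩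
  have hD : ∀ S ≤ A, IntAt M ((∑ᶠ t ∈ {t : Fin (p ^ N) → G | st A t = S}, ∑ᶠ u ∈ (S : Set G), k u * Wt M D θ l S u t *
      ψ (u * w * (List.ofFn t).prod)) / Nat.card A) := fun S hS => hABD p M hM G D x θ χ hL l ψ hψ A hA com w hw k hk S hS (p ^ N)
  rw [hq] at hN hD
  -- the sum
  have key : ∑ᶠ u ∈ (A : Set G), k u * TH M D θ l ψ u w =
      ∑ S : Subgroup G, ∑ᶠ t ∈ {t : Fin (q + 1) → G | st A t = S}, ∑ᶠ u ∈ (S : Set G),
        k u * Wt M D θ l (Subgroup.zpowers u) u t * ψ (u * w * (List.ofFn t).prod) := by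
    have hset : ∀ (S : Subgroup G) (f : G → ℂ), ∑ᶠ u ∈ (S : Set G), f u = ∑ u, if u ∈ S then f u else 0 :=
      fun S f => ABZ_set (fun u => u ∈ S) f
    have hTH : ∀ u ∈ A, TH M D θ l ψ u w = ∑ t : Fin (q + 1) → G, Wt M D θ l (Subgroup.zpowers u) u t *
        ψ (u * w * (List.ofFn t).prod) := by
      intro u hu
      have h1 : w ∈ Cz (⊤ : Subgroup G) u := by
        unfold Cz
        rw [top_inf_eq, Subgroup.mem_centralizer_iff]
        intro g hg
        rw [Set.mem_singleton_iff.1 hg]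
        exact (Subgroup.mem_centralizer_iff.1 hw) u hu
      rw [ABZ_TH hTHB hREP hM hL l hψ u w h1 q, finsum_eq_sum_of_fintype]
    calc ∑ᶠ u ∈ (A : Set G), k u * TH M D θ l ψ u w
        = ∑ u, if u ∈ A then k u * TH M D θ l ψ u w else 0 := hset A _
      _ = ∑ u, ∑ t : Fin (q + 1) → G, if u ∈ A then
            k u * Wt M D θ l (Subgroup.zpowers u) u t * ψ (u * w * (List.ofFn t).prod) else 0 := by
          refine Finset.sum_congr rfl fun u _ => ?_
          by_cases hu : u ∈ A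
          · simp only [if_pos hu]
            rw [hTH u hu, Finset.mul_sum]
            refine Finset.sum_congr rfl fun t _ => ?_
            ring
          · simp only [if_neg hu]
            rw [Finset.sum_const_zero]
      _ = ∑ t : Fin (q + 1) → G, ∑ u, if u ∈ A then
            k u * Wt M D θ l (Subgroup.zpowers u) u t * ψ (u * w * (List.ofFn t).prod) else 0 := Finset.sum_comm
      _ = ∑ t : Fin (q + 1) → G, ∑ u, if u ∈ st A t then
            k u * Wt M D θ l (Subgroup.zpowers u) u t * ψ (u * w * (List.ofFn t).prod) else 0 := by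
          refine Finset.sum_congr rfl fun t _ => Finset.sum_congr rfl fun u _ => ?_
          by_cases hu : u ∈ A
          · by_cases hus : u ∈ st A t
            · rw [if_pos hu, if_pos hus]
            · rw [if_pos hu, if_neg hus, ABZ_zero hREP hM D θ l A u hu t hus, mul_zero, zero_mul]
          · have hus : u ∉ st A t := fun h => hu (Subgroup.mem_inf.1 h).1
            rw [if_neg hu, if_neg hus]
      _ = ∑ t : Fin (q + 1) → G, ∑ S : Subgroup G, if st A t = S then (∑ u, if u ∈ S then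
            k u * Wt M D θ l (Subgroup.zpowers u) u t * ψ (u * w * (List.ofFn t).prod) else 0) else 0 := by
          refine Finset.sum_congr rfl fun t _ => ?_
          rw [Finset.sum_ite_eq, if_pos (Finset.mem_univ _)]
      _ = ∑ S : Subgroup G, ∑ t : Fin (q + 1) → G, if st A t = S then (∑ u, if u ∈ S then
            k u * Wt M D θ l (Subgroup.zpowers u) u t * ψ (u * w * (List.ofFn t).prod) else 0) else 0 := Finset.sum_comm
      _ = _ := by
          refine Finset.sum_congr rfl fun S _ => ?_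
          rw [ABZ_set (fun t : Fin (q + 1) → G => st A t = S)]
          refine Finset.sum_congr rfl fun t _ => ?_
          rw [hset S]
  rw [key, Finset.sum_div]
  refine IntAt.sum hM _ fun S _ => ?_
  by_cases hS : S ≤ A
  · obtain ⟨y, hy, hy'⟩ := hN S hS
    have h1 := hD S hS
    have hp : (p : ℂ) ^ r ≠ 0 := pow_ne_zero _ hM.p_ne
    have hc : ((Nat.card A : ℕ) : ℂ) = (p : ℂ) ^ r := by
      rw [hr]
      push_cast
      rfl
    rw [sub_eq_iff_eq_add] at hy'
    rw [hy', add_div]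
    refine IntAt.add hM ?_ h1
    rw [hc, mul_div_right_comm, div_self hp, one_mul]
    exact hy
  · have h0 : ∑ᶠ t ∈ {t : Fin (q + 1) → G | st A t = S}, ∑ᶠ u ∈ (S : Set G),
        k u * Wt M D θ l (Subgroup.zpowers u) u t * ψ (u * w * (List.ofFn t).prod) = 0 := by
      have h1 : {t : Fin (q + 1) → G | st A t = S} = ∅ := by
        ext t
        simp only [Set.mem_setOf_eq, Set.mem_empty_iff_false, iff_false]
        intro h2
        apply hS
        rw [← h2]
        exact inf_le_left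
      rw [h1, finsum_mem_empty]
    rw [h0, zero_div]
    exact IntAt.zero hM

end Pool.Agent.BR
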